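import Pool.Agent.H88.MCR.Stmts

/-!
# Board mcr, row PAR (helper49)
-/

set_option autoImplicit false

namespace Pool.MCR

theorem par_thm : PAR_S := by
  intro s a b hab
  have hba : b - a ≠ 0 := sub_ne_zero.2 hab.symm
  have hpos : 0 < (b - a) ^ 2 := by positivity
  set σ : ℝ := if s = true then 1 else -1 with hσ
  refine ⟨{ toFun := fun t => (a + (t : ℝ) * (b - a), σ * ((t : ℝ) * (1 - t) * (b - a) ^ 2))
            continuous_toFun := by fun_prop
            source' := by simp
            target' := by simp }, ?_, ?_⟩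
  · intro t t' h
    have h1 : a + (t : ℝ) * (b - a) = a + (t' : ℝ) * (b - a) := congrArg Prod.fst h
    have h2 : (t : ℝ) * (b - a) = (t' : ℝ) * (b - a) := by linarith
    exact Subtype.ext (mul_right_cancel₀ hba h2)
  · ext p
    constructor
    · rintro ⟨t, rfl⟩
      have h0 := t.2.1
      have h1 := t.2.2
      show 0 ≤ (a + (t : ℝ) * (b - a) - a) * (b - (a + (t : ℝ) * (b - a))) ∧
        σ * ((t : ℝ) * (1 - t) * (b - a) ^ 2) =
          σ * ((a + (t : ℝ) * (b - a) - a) * (b - (a + (t : ℝ) * (b - a))))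
      have h2 : (a + (t : ℝ) * (b - a) - a) * (b - (a + (t : ℝ) * (b - a))) =
          (t : ℝ) * (1 - t) * (b - a) ^ 2 := by ring
      rw [h2]
      exact ⟨mul_nonneg (mul_nonneg h0 (by linarith)) hpos.le, rfl⟩
    · rintro ⟨h0, h1⟩
      obtain ⟨t, h2⟩ : ∃ t : ℝ, t * (b - a) = p.1 - a :=
        ⟨(p.1 - a) / (b - a), div_mul_cancel₀ _ hba⟩
      have h3 : (p.1 - a) * (b - p.1) = t * (1 - t) * (b - a) ^ 2 := by
        have h4 : b - p.1 = (1 - t) * (b - a) := by linear_combination h2
        rw [h4, ← h2]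
        ring
      rw [h3] at h0 h1
      have h5 : 0 ≤ t * (1 - t) := by
        by_contra hc
        rw [not_le] at hc
        have := mul_neg_of_neg_of_pos hc hpos
        linarith
      have h6 : 0 ≤ t := by nlinarith
      have h7 : t ≤ 1 := by nlinarith
      refine ⟨⟨t, h6, h7⟩, ?_⟩
      show (a + t * (b - a), σ * (t * (1 - t) * (b - a) ^ 2)) = p
      refine Prod.ext ?_ ?_
      · show a + t * (b - a) = p.1
        rw [h2]; ring
      · show σ * (t * (1 - t) * (b - a) ^ 2) = p.2
        rw [h1]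

end Pool.MCR
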